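import Pool.Agent.H704.Rej.Lower
import Pool.Agent.H704.Rej.Final

/-!
# Online scheduling with rejection: the exact order of the gap for unit running times

`R m` is the deterministic competitive ratio of online scheduling with rejection on `m`
identical machines and `Runit m` the ratio for instances all of whose running times are one
(definitions in `Pool.Agent.H704.Rej.Base`).  We prove

* `C₁ (log m / m)^(1/φ²) ≤ 1 + φ - Runit m ≤ C₂ (log m / m)^(1/φ²)` for all large `m`;
* `1 + φ - R m ≤ C₂ (log m / m)^(1/φ²)` for all `m ≥ 2`.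

*Adversary* (`Pool.Agent.H704.Rej.Lower`).  With `c = φ² - g`, `S` the penalties paid and `r` the
number of rejected jobs: an initial phase of `O(log (1/g))` forced rejections gives
`Y = 2 + S - c ≥ g / 2`.  Then stages of `2 (r + 1)` jobs of penalty `u Y / (r + 1)`; here
`u = (1 - δ) / φ²` with the *varying* `δ = √((r + 1) / m) / 4`.  The number of jobs stays at most
`O(√(m (r + 1)))`, and `log Y - φ⁻² log (r + 1)` loses only `O(1)` in total.

*Algorithm* (`Pool.Agent.H704.Rej.Upper`).  Before the first acceptance a job is rejected if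
accepting it would violate the ratio.  Jobs of penalty at most
`θ = (Z / c) / (1 + L (Z / Z₀) ^ c)` or at most `1 / (2 m)` are always rejected, where `Z` is the
current value of `2 + S - c` (at least `Z₀`, the value forced by the initial phase) and
`L ~ log (1/g) / 5`.  Accepted jobs are placed cyclically.  Invariant: the sum of
`min (p, θ)` over the rejected jobs plus `θ` is at least `Z / c`.
-/

set_option autoImplicit false

namespace Pool.Agent.Results.MP_0ea0cb_lc.UnitTimeGap

open Pool.Agent.H704.Rej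

theorem result : ∃ C₁ C₂ : ℝ, 0 < C₁ ∧ 0 < C₂ ∧
    (∃ m₀ : ℕ, ∀ m : ℕ, m₀ ≤ m →
      C₁ * (Real.log m / m) ^ (1 / Real.goldenRatio ^ 2) ≤ 1 + Real.goldenRatio - Runit m) ∧
    ∀ m : ℕ, 2 ≤ m →
      1 + Real.goldenRatio - Runit m ≤ C₂ * (Real.log m / m) ^ (1 / Real.goldenRatio ^ 2) ∧
      1 + Real.goldenRatio - R m ≤ C₂ * (Real.log m / m) ^ (1 / Real.goldenRatio ^ 2) := by
  obtain ⟨C₁, h1, m₀, h2⟩ := gap_lower
  obtain ⟨C₂, h3, h4⟩ := gap_upper
  refine ⟨C₁, C₂, h1, h3, ⟨m₀, h2⟩, fun m hm => ⟨h4 m hm, ?_⟩⟩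
  have h5 := h4 m hm
  have h6 := Runit_le_R (m := m) (by omega)
  linarith

end Pool.Agent.Results.MP_0ea0cb_lc.UnitTimeGap
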